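import Mathlib
import Pool.Agent.X1.NfaAper

/-!
# Finite automata and the binary digits of `√2`

A nondeterministic automaton with at most `N^(1-δ)` states which accepts the first `N` binary digits
of `√2`, or a word which differs from them in at most `C log N` places, accepts at least
`exp (C (log N)^2)` words of length `N`, for every `δ > 0` and every `C`.  The same is proved for all
positive irrational algebraic numbers and all bases composed of given primes.
-/

set_option autoImplicit false

namespace Pool.Agent.Results.MP_0308e6_nt.AcceptedWordsSuperpolynomial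

open Finset

/-- the number of words of length `N` accepted by the automaton -/
noncomputable def numAccepted {b : ℕ} {σ : Type} (M : NFA (Fin b) σ) (N : ℕ) : ℕ :=
  {w : List (Fin b) | w ∈ M.accepts ∧ w.length = N}.ncard

/-- Let `ξ` be a positive irrational algebraic number (for instance `√2`), let `S` be a finite set of
primes (for instance `{2}`), and let `δ > 0` and `C ≥ 0`.  There is `N₁` such that for all bases
`b ≥ 2` whose prime divisors are in `S` (for instance `b = 2`), all `N ≥ N₁` and all nondeterministic
finite automata `M` over the alphabet of the digits with at most `N^(1-δ)` states: if `M` accepts a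
word `d_0 … d_(N-1)` which differs from the first `N` digits of `ξ` after the point in at most
`C log N` places, then it accepts at least `exp (C (log N)^2)` words of length `N`.
(`Real.digits ξ b i` is Mathlib's name of the `(i+1)`-st digit after the point,
`⌊ξ b^(i+1)⌋ mod b`.) -/
theorem result (ξ : ℝ) (hpos : 0 < ξ) (halg : IsAlgebraic ℚ ξ) (hirr : Irrational ξ)
    (S : Finset ℕ) (hS : ∀ p ∈ S, p.Prime) (δ C : ℝ) (hδ : 0 < δ) (hC : 0 ≤ C) :
    ∃ N₁ : ℕ, ∀ (b : ℕ) [NeZero b], 2 ≤ b → (∀ p : ℕ, p.Prime → p ∣ b → p ∈ S) →
    ∀ (σ : Type) [Fintype σ] (M : NFA (Fin b) σ) (N : ℕ), N₁ ≤ N →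
      (Fintype.card σ : ℝ) ≤ (N : ℝ) ^ (1 - δ) →
      ∀ d : ℕ → Fin b,
        (((range N).filter fun i => d i ≠ Real.digits ξ b i).card : ℝ) ≤ C * Real.log N →
        (List.range N).map d ∈ M.accepts →
        Real.exp (C * Real.log N ^ 2) ≤ (numAccepted M N : ℝ) :=
  (Pool.Agent.X1.NfaAlg.alg_all hpos.le halg hirr S hS).1 δ C hδ hC

end Pool.Agent.Results.MP_0308e6_nt.AcceptedWordsSuperpolynomial
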