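import Mathlib
import Pool.Agent.X1.NfaAper

/-!
# The automatic complexity of the first `N` binary digits of `√2`

The nondeterministic automatic complexity of a word `w` is the least number of states of a
nondeterministic automaton (without empty transitions) which accepts `w` and no other word of the
same length; it is at most `N / 2 + 1` for all words of length `N`.  For the first `N` binary digits
of `√2`, and more generally for the first `N` digits of any positive irrational algebraic number in
any base, it is at least `N exp (-ε √(log N))`, for every `ε > 0` and all large `N`.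
-/

set_option autoImplicit false

namespace Pool.Agent.Results.MP_0308e6_nt.AutomaticComplexity

/-- the word formed by the first `N` digits of `ξ` after the point in base `b` (Mathlib's
`Real.digits ξ b i` is the `(i+1)`-st digit after the point, `⌊ξ b^(i+1)⌋ mod b`) -/
noncomputable def digitWord (ξ : ℝ) (b : ℕ) [NeZero b] (N : ℕ) : List (Fin b) :=
  (List.range N).map (Real.digits ξ b)

/-- Let `ξ` be a positive irrational algebraic number (for instance `√2`), let `S` be a finite set of
primes (for instance `{2}`) and let `ε > 0`.  There is `N₁` such that for all `N ≥ N₁` and all bases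
`b ≥ 2` whose prime divisors are in `S` (for instance `b = 2`): every nondeterministic finite
automaton which accepts the word formed by the first `N` digits of `ξ` in base `b` and no other word
of length `N` has at least `N exp (-ε √(log N))` states. -/
theorem result (ξ : ℝ) (hpos : 0 < ξ) (halg : IsAlgebraic ℚ ξ) (hirr : Irrational ξ)
    (S : Finset ℕ) (hS : ∀ p ∈ S, p.Prime) (ε : ℝ) (hε : 0 < ε) :
    ∃ N₁ : ℕ, ∀ (b : ℕ) [NeZero b], 2 ≤ b → (∀ p : ℕ, p.Prime → p ∣ b → p ∈ S) →
    ∀ (σ : Type) [Fintype σ] (M : NFA (Fin b) σ) (N : ℕ), N₁ ≤ N →
      digitWord ξ b N ∈ M.accepts →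
      (∀ w ∈ M.accepts, w.length = N → w = digitWord ξ b N) →
      (N : ℝ) * Real.exp (-(ε * √(Real.log N))) ≤ Fintype.card σ :=
  (Pool.Agent.X1.NfaAlg.alg_all hpos.le halg hirr S hS).2 ε hε

end Pool.Agent.Results.MP_0308e6_nt.AutomaticComplexity
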