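import Mathlib
import Pool.Agent.X2.AdicDigits

/-!
# The 2-adic complexity of the binary digits of `√2`, read backwards

No hypothesis is assumed.  Let `a_1, a_2, …` be the digits of a real number in base `b`.

* For `√2`, for every real quadratic irrational and for every badly approximable number the `b`-adic
  complexity of the word `a_n a_{n-1} … a_1` is `n / 2 + O(1)`, uniformly in the base `b`.
* For every irrational algebraic number, every base `b` and every `ε > 0` the `b`-adic complexity of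
  `a_{m+n} a_{m+n-1} … a_{m+1}` differs from `n / 2` by at most `ε (m + n) + C`, for all `m` and `n`.

So the windows with `n ≥ δ m` have the complexity `(1 / 2 + o(1)) n` of random words.
-/

set_option autoImplicit false

namespace Pool.Agent.Results.MP_0308e6_nt.BackwardsAdicComplexity

open Finset Polynomial

/-- the `k`-th digit of `x` after the point in base `b` -/
noncomputable def digit (b : ℕ) (x : ℝ) (k : ℕ) : ℤ := ⌊x * (b : ℝ) ^ k⌋ % (b : ℤ)

/-- the least `M` such that the `b`-adic expansion of some rational number `f / g`, with `g > 0` prime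
to `b` and `|f| ≤ M`, `g ≤ M`, begins with the letters `c 0, c 1, …, c (n - 1)`, that is
`f / g ≡ ∑_{i < n} c i b ^ i` modulo `b ^ n` -/
noncomputable def size (b n : ℕ) (c : ℕ → ℤ) : ℕ :=
  sInf {M : ℕ | ∃ f g : ℤ, 0 < g ∧ Int.gcd g b = 1 ∧
    (b : ℤ) ^ n ∣ g * (∑ i ∈ range n, c i * (b : ℤ) ^ i) - f ∧ |f| ≤ M ∧ g ≤ M}

/-- the `b`-adic complexity of the word `c 0, c 1, …, c (n - 1)` -/
noncomputable def adicComplexity (b n : ℕ) (c : ℕ → ℤ) : ℝ := Real.logb b (size b n c)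

/-- the digits of `x` at the places `m + n, m + n - 1, …, m + 1`, in this order -/
noncomputable def backwards (b : ℕ) (x : ℝ) (m n : ℕ) : ℕ → ℤ := fun i => digit b x (m + n - i)

/-- Liouville's inequality for quadratic irrationals -/
theorem liouville (x : ℝ) (hx : Irrational x) (u v w : ℤ) (hu : u ≠ 0)
    (h : (u : ℝ) * x ^ 2 + v * x + w = 0) :
    ∃ c : ℝ, 0 < c ∧ ∀ q : ℕ, 1 ≤ q → ∀ p : ℤ, c ≤ (q : ℝ) * |q * x - p| := by
  set f : ℤ[X] := C u * X ^ 2 + C v * X + C w with hf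
  have hd : f.natDegree = 2 := natDegree_quadratic hu
  have f0 : f ≠ 0 := by
    intro h0
    rw [h0, natDegree_zero] at hd
    omega
  obtain ⟨a, ha, hL⟩ := Liouville.exists_pos_real_of_irrational_root hx f0 (by
    rw [hf]
    simp only [Polynomial.map_add, Polynomial.map_mul, Polynomial.map_pow, Polynomial.map_C,
      Polynomial.map_X, eval_add, eval_mul, eval_pow, eval_C, eval_X]
    simpa using h)
  refine ⟨1 / a, by positivity, fun q hq p => ?_⟩
  have h1 := hL p (q - 1)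
  have hqR : (0 : ℝ) < q := by exact_mod_cast hq
  have e1 : (((q - 1 : ℕ) : ℝ) + 1) = q := by
    rw [Nat.cast_sub hq]
    push_cast
    ring
  rw [e1, hd] at h1
  have e2 : |x - p / q| = |q * x - p| / q := by
    rw [← abs_of_pos hqR, ← abs_div, abs_of_pos hqR]
    congr 1
    field_simp
  rw [e2] at h1
  rw [div_le_iff₀ ha]
  calc (1 : ℝ) ≤ (q : ℝ) ^ 2 * (|q * x - p| / q * a) := h1
    _ = (q : ℝ) * |q * x - p| * a := by field_simp

theorem badly (x c : ℝ) (hc : 0 < c) (hx : ∀ q : ℕ, 1 ≤ q → ∀ p : ℤ, c ≤ (q : ℝ) * |q * x - p|) :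
    ∃ C : ℝ, ∀ b : ℕ, 2 ≤ b → ∀ n : ℕ,
      |adicComplexity b n (backwards b x 0 n) - n / 2| ≤ C :=
  Pool.Agent.X2.AdicDigits.badly x c hc hx

/-- The `b`-adic complexity of the digits of `√2`, of quadratic irrationals, of badly approximable
numbers and of algebraic numbers, read backwards. -/
theorem result :
    (∃ C : ℝ, ∀ b : ℕ, 2 ≤ b → ∀ n : ℕ,
      |adicComplexity b n (backwards b (Real.sqrt 2) 0 n) - n / 2| ≤ C) ∧
    (∀ x : ℝ, Irrational x → (∃ u v w : ℤ, u ≠ 0 ∧ (u : ℝ) * x ^ 2 + v * x + w = 0) →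
      ∃ C : ℝ, ∀ b : ℕ, 2 ≤ b → ∀ n : ℕ,
        |adicComplexity b n (backwards b x 0 n) - n / 2| ≤ C) ∧
    (∀ x c : ℝ, 0 < c → (∀ q : ℕ, 1 ≤ q → ∀ p : ℤ, c ≤ (q : ℝ) * |q * x - p|) →
      ∃ C : ℝ, ∀ b : ℕ, 2 ≤ b → ∀ n : ℕ,
        |adicComplexity b n (backwards b x 0 n) - n / 2| ≤ C) ∧
    (∀ ξ : ℝ, IsAlgebraic ℚ ξ → Irrational ξ → ∀ b : ℕ, 2 ≤ b → ∀ ε : ℝ, 0 < ε →
      ∃ C : ℝ, ∀ m n : ℕ,
        |adicComplexity b n (backwards b ξ m n) - n / 2| ≤ ε * (m + n) + C) := by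
  have hquad : ∀ x : ℝ, Irrational x → (∃ u v w : ℤ, u ≠ 0 ∧ (u : ℝ) * x ^ 2 + v * x + w = 0) →
      ∃ C : ℝ, ∀ b : ℕ, 2 ≤ b → ∀ n : ℕ,
        |adicComplexity b n (backwards b x 0 n) - n / 2| ≤ C := by
    rintro x hx ⟨u, v, w, hu, h⟩
    obtain ⟨c, hc, hq⟩ := liouville x hx u v w hu h
    exact badly x c hc hq
  refine ⟨hquad _ irrational_sqrt_two ⟨1, 0, -2, one_ne_zero, ?_⟩, hquad, badly, ?_⟩
  · push_cast
    rw [Real.sq_sqrt (by norm_num)]
    norm_num
  · intro ξ halg hirr b hb ε hε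
    exact Pool.Agent.X2.AdicDigits.algebraic ξ halg hirr b hb ε hε

end Pool.Agent.Results.MP_0308e6_nt.BackwardsAdicComplexity
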