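import Mathlib
import Pool.Agent.Y933.KD.Clt2

/-!
# A central limit theorem for the binary digits of the multiples of `√2`

Let `m` run through an interval of `M` consecutive integers and let `N = N(M) → ∞` with
`s + N ≤ A log M` for some fixed (arbitrarily large) `A`.  Then the number of ones among the binary
digits of `m √2 + y` at the places `s + 1, …, s + N` is asymptotically normal with mean `N / 2` and
variance `N / 4`.  The same is true for all irrational algebraic numbers in place of `√2`, all bases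
and all functions of blocks of digits.
-/

set_option autoImplicit false

namespace Pool.Agent.Results.MP_0308e6_nt.CentralLimitTheoremForMultiples

open Finset Filter Topology ProbabilityTheory

/-- the block of the `w` digits of `x` in base `b` at the places `n + 1, …, n + w` after the point,
as a number `< b ^ w` (for `b = 2`, `w = 1` this is the binary digit at the place `n + 1`) -/
noncomputable def block (b w n : ℕ) (x : ℝ) : ℕ := ⌊(b : ℝ) ^ w * Int.fract ((b : ℝ) ^ n * x)⌋₊

/-- the mean of `F` over the blocks of length `w` -/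
noncomputable def mean (b w : ℕ) (F : ℕ → ℝ) : ℝ := (∑ c ∈ range (b ^ w), F c) / (b : ℝ) ^ w

/-- the covariance of `F` of two blocks of length `w` at the distance `h` in a random word -/
noncomputable def covariance (b w : ℕ) (F : ℕ → ℝ) (h : ℕ) : ℝ :=
  (∑ c ∈ range (b ^ (w + h)), (F (c / b ^ h) - mean b w F) * (F (c % b ^ w) - mean b w F)) /
    (b : ℝ) ^ (w + h)

/-- the variance constant of `F` -/
noncomputable def variance (b w : ℕ) (F : ℕ → ℝ) : ℝ :=
  covariance b w F 0 + 2 * ∑ h ∈ Ico 1 w, covariance b w F h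

theorem general {b w : ℕ} (hb : 2 ≤ b) (hw : 1 ≤ w) (F : ℕ → ℝ) (hσ : 0 < variance b w F)
    (ξ : ℝ) (halg : IsAlgebraic ℚ ξ) (hirr : Irrational ξ) (A : ℝ) (L s N : ℕ → ℕ) (y : ℕ → ℝ)
    (hN : Tendsto N atTop atTop) (hsN : ∀ᶠ M : ℕ in atTop, (s M : ℝ) + N M ≤ A * Real.log M)
    (a : ℝ) :
    Tendsto (fun M : ℕ => (((Ioc (L M) (L M + M)).filter (fun m : ℕ =>
      ∑ i ∈ range (N M), F (block b w (s M + i) (m * ξ + y M)) - N M * mean b w F ≤
        a * √(variance b w F * N M))).card : ℝ) / M) atTop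
      (𝓝 ((gaussianReal 0 1).real (Set.Iic a))) :=
  Pool.Agent.Y933.KD.clt_mult (by omega) hw F hσ L ξ halg hirr y s N hN hsN a

lemma mean_two : mean 2 1 (fun c => (c : ℝ)) = 1 / 2 := by
  unfold mean
  norm_num [Finset.sum_range_succ]

lemma variance_two : variance 2 1 (fun c => (c : ℝ)) = 1 / 4 := by
  unfold variance covariance
  rw [mean_two]
  norm_num [Finset.sum_range_succ]

/-- **Central limit theorem** for the digits of the multiples of `√2` in base `2`, and for the digits of
the multiples of every irrational algebraic number in every base. -/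
theorem result :
    (∀ (A : ℝ) (L s N : ℕ → ℕ) (y : ℕ → ℝ), Tendsto N atTop atTop →
      (∀ᶠ M : ℕ in atTop, (s M : ℝ) + N M ≤ A * Real.log M) → ∀ a : ℝ,
      Tendsto (fun M : ℕ => (((Ioc (L M) (L M + M)).filter (fun m : ℕ =>
        ((∑ i ∈ range (N M), block 2 1 (s M + i) (m * Real.sqrt 2 + y M) : ℕ) : ℝ) - N M / 2 ≤
          a * (√(N M : ℝ) / 2))).card : ℝ) / M) atTop
        (𝓝 ((gaussianReal 0 1).real (Set.Iic a)))) ∧
    (∀ (b w : ℕ), 2 ≤ b → 1 ≤ w → ∀ F : ℕ → ℝ, 0 < variance b w F →
      ∀ ξ : ℝ, IsAlgebraic ℚ ξ → Irrational ξ → ∀ (A : ℝ) (L s N : ℕ → ℕ) (y : ℕ → ℝ),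
      Tendsto N atTop atTop → (∀ᶠ M : ℕ in atTop, (s M : ℝ) + N M ≤ A * Real.log M) →
      ∀ a : ℝ, Tendsto (fun M : ℕ => (((Ioc (L M) (L M + M)).filter (fun m : ℕ =>
        ∑ i ∈ range (N M), F (block b w (s M + i) (m * ξ + y M)) - N M * mean b w F ≤
          a * √(variance b w F * N M))).card : ℝ) / M) atTop
        (𝓝 ((gaussianReal 0 1).real (Set.Iic a)))) := by
  refine ⟨?_, fun b w hb hw F hσ ξ halg hirr A L s N y hN hsN a =>
    general hb hw F hσ ξ halg hirr A L s N y hN hsN a⟩
  intro A L s N y hN hsN a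
  have halg : IsAlgebraic ℚ (Real.sqrt 2) := by
    refine ⟨Polynomial.X ^ 2 - Polynomial.C 2, Polynomial.X_pow_sub_C_ne_zero (by norm_num) _, ?_⟩
    rw [map_sub, map_pow, Polynomial.aeval_X, Polynomial.aeval_C, Real.sq_sqrt (by norm_num)]
    norm_num
  have h := general (b := 2) (w := 1) le_rfl le_rfl (fun c => (c : ℝ))
    (by rw [variance_two]; norm_num) (Real.sqrt 2) halg irrational_sqrt_two A L s N y hN hsN a
  refine h.congr (fun M => ?_)
  congr 3
  apply Finset.filter_congr
  intro m _
  rw [mean_two, variance_two]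
  have e1 : √(1 / 4 * (N M : ℝ)) = √(N M : ℝ) / 2 := by
    rw [Real.sqrt_mul (by norm_num), show (1 / 4 : ℝ) = (1 / 2) ^ 2 by norm_num,
      Real.sqrt_sq (by norm_num)]
    ring
  rw [e1]
  push_cast
  constructor <;> intro h' <;> linarith

end Pool.Agent.Results.MP_0308e6_nt.CentralLimitTheoremForMultiples
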